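import Mathlib

/-! Monogenic stable homotopy categories, sparse cells, Bousfield localisation. -/

namespace Pool.Agent.P.MP_3d2265_gt

open CategoryTheory Limits Pretriangulated MonoidalCategory

universe v u

variable {C : Type u} [Category.{v} C] [Preadditive C] [HasZeroObject C] [HasShift C ℤ]
  [∀ n : ℤ, (shiftFunctor C n).Additive] [Pretriangulated C] [MonoidalCategory C]
  [MonoidalClosed C] [HasCoproducts.{0} C]

variable (C) in
/-- The sphere of dimension `j`. -/
abbrev Sph (j : ℤ) : C := (𝟙_ C)⟦j⟧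

variable (C) in
/-- Axioms that hold in every monogenic stable homotopy category: the smash product and the
function object are exact, smashing with a sphere is suspension, the spheres are small and
detect the zero object. -/
structure Stable : Prop where
  smash : ∀ (A : C), ∀ T ∈ distTriang C,
    ∃ h, Triangle.mk (A ◁ T.mor₁) (A ◁ T.mor₂) h ∈ distTriang C
  func : ∀ (A : C), ∀ T ∈ distTriang C, ∃ h, Triangle.mk ((MonoidalClosed.pre T.mor₂).app A)
    ((MonoidalClosed.pre T.mor₁).app A) h ∈ distTriang C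
  susp : ∀ (A : C) (j : ℤ), Nonempty (A ⊗ Sph C j ≅ A⟦j⟧)
  small : ∀ (j : ℤ) (X : ℕ → C) (f : Sph C j ⟶ ∐ X), ∃ (N : ℕ) (g : ∀ n, Sph C j ⟶ X n),
    f = ∑ n ∈ Finset.range N, g n ≫ Sigma.ι X n
  gen : ∀ X : C, (∀ (j : ℤ) (f : Sph C j ⟶ X), f = 0) → IsZero X

/-- The map `1 - shift` whose cofibre is the sequential homotopy colimit. -/
noncomputable def tel (F : ℕ → C) (i : ∀ n, F n ⟶ F (n + 1)) : ∐ F ⟶ ∐ F :=
  𝟙 _ - Limits.Sigma.desc fun n => i n ≫ Sigma.ι F (n + 1)

/-- `W` is a cell object all of whose cells have dimension a positive multiple of `q`: the homotopy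
colimit of a sequence starting at zero whose cofibres are wedges of spheres of such dimensions. -/
def Sparse (q : ℤ) (W : C) : Prop :=
  ∃ (F : ℕ → C) (i : ∀ n, F n ⟶ F (n + 1)), IsZero (F 0) ∧
    (∀ n, ∃ (ι : Type) (k : ι → ℕ) (a : F (n + 1) ⟶ ∐ fun x => Sph C (q * (k x + 1)))
      (b : _ ⟶ (F n)⟦(1 : ℤ)⟧), Triangle.mk (i n) a b ∈ distTriang C) ∧
    ∃ (a : ∐ F ⟶ W) (b : W ⟶ (∐ F)⟦(1 : ℤ)⟧), Triangle.mk (tel F i) a b ∈ distTriang C

/-- The homotopy groups of `Y` vanish in all large degrees of one residue class modulo `q`. -/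
def Gap (q : ℤ) (Y : C) : Prop :=
  ∃ c N : ℤ, ∀ j : ℤ, N ≤ j → j ≡ c [ZMOD q] → ∀ f : Sph C j ⟶ Y, f = 0

variable {ι : Type}

/-- Acyclic for the wedge of the family `T`. -/
def Acyc (T : ι → C) (A : C) : Prop := ∀ i, IsZero (T i ⊗ A)

/-- Local for the wedge of the family `T`. -/
def Loc (T : ι → C) (X : C) : Prop := ∀ A, Acyc T A → ∀ f : A ⟶ X, f = 0

/-- `a` is a Bousfield localisation map for the wedge of the family `T`. -/
def IsLoc (T : ι → C) {X X' : C} (a : X ⟶ X') : Prop := (∀ i, IsIso (T i ◁ a)) ∧ Loc T X'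

/-- Localisation at the wedge of the family `T` exists and is smashing. -/
def Smashing (T : ι → C) : Prop :=
  ∃ (P : C) (l : 𝟙_ C ⟶ P), IsLoc T l ∧ ∀ X : C, Loc T (X ⊗ P)

/-- The comparison map from the `T`-localisation of `X` to its `K`-localisation is invertible. -/
def TC (T K : ι → C) (X : C) : Prop :=
  ∀ (X' X'' : C) (a : X ⟶ X') (b : X ⟶ X'') (c : X' ⟶ X''),
    IsLoc T a → IsLoc K b → a ≫ c = b → IsIso c

end Pool.Agent.P.MP_3d2265_gt
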