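import Pool.Agent.P.MP_3d2265_gt.Defs

/-! An object with a gap in its homotopy is killed by every object that kills a sparse ring. -/

set_option linter.unusedSectionVars false

namespace Pool.Agent.P.MP_3d2265_gt

open CategoryTheory Limits Pretriangulated MonoidalCategory

universe v u

variable {C : Type u} [Category.{v} C] [Preadditive C] [HasZeroObject C] [HasShift C ℤ]
  [∀ n : ℤ, (shiftFunctor C n).Additive] [Pretriangulated C] [MonoidalCategory C]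
  [MonoidalClosed C] [HasCoproducts.{0} C]

/-- All maps vanish. -/
def Z (X Y : C) : Prop := ∀ f : X ⟶ Y, f = 0

theorem Z_iff {X Y : C} : Z X Y ↔ Subsingleton (X ⟶ Y) :=
  ⟨fun h => ⟨fun f g => (h f).trans (h g).symm⟩, fun h f => h.elim f 0⟩

theorem Z.equiv {X Y X' Y' : C} (e : (X ⟶ Y) ≃ (X' ⟶ Y')) : Z X Y ↔ Z X' Y' := by
  rw [Z_iff, Z_iff, e.subsingleton_congr]

theorem Z.iso {X X' Y : C} (e : X ≅ X') : Z X Y ↔ Z X' Y := Z.equiv (e.homCongr (Iso.refl Y))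

theorem Z.shift {X Y : C} (a b : ℤ) (h : a + b = 0) : Z (X⟦a⟧) Y ↔ Z X (Y⟦b⟧) :=
  Z.equiv ((shiftEquiv' C a b h).toAdjunction.homEquiv X Y)

theorem Z.add {X Y : C} (a b c : ℤ) (h : a + b = c) : Z (X⟦c⟧) Y ↔ Z (X⟦a⟧⟦b⟧) Y :=
  Z.iso ((shiftFunctorAdd' C a b c h).app X)

section
variable {X Y W U : C} {f : X ⟶ Y} {g : Y ⟶ W} {h : W ⟶ X⟦(1 : ℤ)⟧}
  (hT : Triangle.mk f g h ∈ distTriang C)
include hT

theorem yo1 (u : X ⟶ U) (hu : Z (W⟦(-1 : ℤ)⟧) U) : ∃ v : Y ⟶ U, u = f ≫ v :=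
  Triangle.yoneda_exact₂ _ (inv_rot_of_distTriang _ hT) u (hu _)

theorem yo2 (u : Y ⟶ U) (hu : f ≫ u = 0) : ∃ v : W ⟶ U, u = g ≫ v :=
  Triangle.yoneda_exact₂ _ hT u hu

theorem yo3 (u : W ⟶ U) (hu : g ≫ u = 0) : ∃ v : X⟦(1 : ℤ)⟧ ⟶ U, u = h ≫ v :=
  Triangle.yoneda_exact₃ _ hT u hu

theorem co3 (u : U ⟶ W) (hu : u ≫ h = 0) : ∃ v : U ⟶ Y, u = v ≫ g :=
  Triangle.coyoneda_exact₃ _ hT u hu

theorem z12 : f ≫ g = 0 := comp_distTriang_mor_zero₁₂ _ hT

theorem z31 : h ≫ f⟦(1 : ℤ)⟧' = 0 := comp_distTriang_mor_zero₃₁ _ hT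

theorem iz3 : IsZero W ↔ IsIso f := Triangle.isZero₃_iff_isIso₁ _ hT

theorem iz1 : IsZero X ↔ IsIso g := Triangle.isZero₁_iff_isIso₂ _ hT

theorem Stable.sm (hC : Stable C) (A : C) :
    ∃ k, Triangle.mk (A ◁ f) (A ◁ g) k ∈ distTriang C := hC.smash A _ hT

end

theorem ι_tel (F : ℕ → C) (i : ∀ n, F n ⟶ F (n + 1)) (n : ℕ) :
    Sigma.ι F n ≫ tel F i = Sigma.ι F n - i n ≫ Sigma.ι F (n + 1) := by
  simp [tel, Preadditive.comp_sub]

theorem sparse_Z {q : ℤ} {W Y : C} (hW : Sparse q W)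
    (h : ∀ k : ℕ, Z (Sph C (q * (k + 1))) (Y⟦(1 : ℤ)⟧)) : Z W (Y⟦(1 : ℤ)⟧) := by
  obtain ⟨F, i, h0, hc, a, b, hT⟩ := hW
  have hw : ∀ (ι : Type) (k : ι → ℕ), Z (∐ fun x => Sph C (q * (k x + 1))) (Y⟦(1 : ℤ)⟧) :=
    fun ι k f => Sigma.hom_ext _ _ fun x => by rw [h (k x) (_ ≫ f), comp_zero]
  have hF : ∀ n, Z (F n) (Y⟦(1 : ℤ)⟧) := by
    intro n
    induction n with
    | zero => exact fun f => h0.eq_of_src _ _
    | succ n ih =>
      intro f
      obtain ⟨ι, k, a', b', hT'⟩ := hc n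
      obtain ⟨g, hg⟩ := yo2 hT' f (ih _)
      rw [hg, hw ι k g, comp_zero]
  have hext : ∀ n (u : F n ⟶ Y), ∃ u' : F (n + 1) ⟶ Y, u = i n ≫ u' := by
    intro n u
    obtain ⟨ι, k, a', b', hT'⟩ := hc n
    exact yo1 hT' u ((Z.shift (-1) 1 (by norm_num)).2 (hw ι k))
  choose ex hex using hext
  intro f
  obtain ⟨g, hg⟩ := yo3 hT f
    (Sigma.hom_ext _ _ fun n => by rw [comp_zero]; exact hF n _)
  obtain ⟨g0, rfl⟩ := (shiftFunctor C (1 : ℤ)).map_surjective g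
  let hh : ∀ n, F n ⟶ Y := fun n =>
    Nat.rec (motive := fun n => F n ⟶ Y) 0 (fun n u => ex n (u - Sigma.ι F n ≫ g0)) n
  have e : tel F i ≫ Limits.Sigma.desc hh = g0 := Sigma.hom_ext _ _ fun n => by
    have := hex n (hh n - Sigma.ι F n ≫ g0)
    rw [← Category.assoc, ι_tel, Preadditive.sub_comp, Category.assoc, Sigma.ι_desc, Sigma.ι_desc]
    change hh n - i n ≫ ex n (hh n - Sigma.ι F n ≫ g0) = _
    rw [← this, sub_sub_cancel]
  rw [hg, ← e, Functor.map_comp, ← Category.assoc, z31 hT, zero_comp]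

theorem tel_inj {P : C} (F : ℕ → C) (i : ∀ n, F n ⟶ F (n + 1)) (N : ℕ) (g : ∀ n, P ⟶ F n)
    (h : (∑ n ∈ Finset.range N, g n ≫ Sigma.ι F n) ≫ tel F i = 0) :
    ∑ n ∈ Finset.range N, g n ≫ Sigma.ι F n = 0 := by
  set y := ∑ n ∈ Finset.range N, g n ≫ Sigma.ι F n with hy
  let s : ∐ F ⟶ ∐ F := Limits.Sigma.desc fun n => i n ≫ Sigma.ι F (n + 1)
  let pr : ℕ → (∐ F ⟶ ∐ F) := fun k =>
    Limits.Sigma.desc fun n => if n < k then Sigma.ι F n else 0
  have h1 : y = y ≫ s := by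
    rw [tel, Preadditive.comp_sub, Category.comp_id, sub_eq_zero] at h; exact h
  have h2 : ∀ k, s ≫ pr (k + 1) = pr k ≫ s := fun k => Sigma.hom_ext _ _ fun n => by
    by_cases hn : n < k <;> simp [s, pr, hn]
  have h3 : ∀ k, y ≫ pr k = 0 := by
    intro k
    induction k with
    | zero =>
      have : pr 0 = 0 := Sigma.hom_ext _ _ fun n => by simp [pr]
      rw [this, comp_zero]
    | succ k ih => rw [h1, Category.assoc, h2, ← Category.assoc, ih, zero_comp]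
  rw [← h3 N, hy, Preadditive.sum_comp]
  refine Finset.sum_congr rfl fun n hn => ?_
  simp [pr, Finset.mem_range.1 hn]

theorem tel_surj {P : C} (F : ℕ → C) (i : ∀ n, F n ⟶ F (n + 1)) (r : ℕ) :
    ∀ n, Z P (F (n + r)) → ∀ g : P ⟶ F n, ∃ z, z ≫ tel F i = g ≫ Sigma.ι F n := by
  induction r with
  | zero => exact fun n h g => ⟨0, by rw [h g, zero_comp, zero_comp]⟩
  | succ r ih =>
    intro n h g
    obtain ⟨z, hz⟩ := ih (n + 1) (by rwa [add_assoc, add_comm 1]) (g ≫ i n)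
    refine ⟨z + g ≫ Sigma.ι F n, ?_⟩
    rw [Preadditive.add_comp, hz, Category.assoc, Category.assoc, ι_tel, Preadditive.comp_sub]
    abel

theorem tel_iso (hC : Stable C) (F : ℕ → C) (i : ∀ n, F n ⟶ F (n + 1))
    (h : ∀ j n, ∃ r, Z (Sph C j) (F (n + r))) : IsIso (tel F i) := by
  obtain ⟨H, a, b, hT⟩ := distinguished_cocone_triangle (tel F i)
  refine (iz3 hT).1 (hC.gen H fun j x => ?_)
  have e := (shiftFunctorAdd' C (j - 1) 1 j (by ring)).app (𝟙_ C)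
  have h1 : x ≫ b = 0 := by
    obtain ⟨y, hy⟩ := (shiftFunctor C (1 : ℤ)).map_surjective (X := Sph C (j - 1))
      (e.inv ≫ x ≫ b)
    obtain ⟨N, g, rfl⟩ := hC.small _ F y
    have z := z31 hT
    have h2 := tel_inj F i N g ((shiftFunctor C (1 : ℤ)).map_injective (by
      rw [Functor.map_comp, hy, Functor.map_zero, Category.assoc, Category.assoc, z, comp_zero,
        comp_zero]))
    rw [h2, Functor.map_zero] at hy
    rw [← cancel_epi e.inv, ← hy, comp_zero]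
  obtain ⟨y, hy⟩ := co3 hT x h1
  obtain ⟨N, g, rfl⟩ := hC.small _ F y
  rw [hy, Preadditive.sum_comp]
  refine Finset.sum_eq_zero fun n _ => ?_
  obtain ⟨r, hr⟩ := h j n
  obtain ⟨w, hw⟩ := tel_surj F i r n hr (g n)
  rw [← hw, Category.assoc, z12 hT, comp_zero]

variable [MonoidalPreadditive C]

theorem isZero_tensor_left {A : C} (h : IsZero A) (B : C) : IsZero (A ⊗ B) := by
  rw [IsZero.iff_id_eq_zero] at h ⊢
  rw [← id_whiskerRight, h, MonoidalPreadditive.zero_whiskerRight]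

theorem isZero_tensor_right (A : C) {B : C} (h : IsZero B) : IsZero (A ⊗ B) := by
  rw [IsZero.iff_id_eq_zero] at h ⊢
  rw [← whiskerLeft_id, h, MonoidalPreadditive.whiskerLeft_zero]

theorem isZero_of_tel (A : C) (F : ℕ → C) (i : ∀ n, F n ⟶ F (n + 1)) [IsIso (tel F i)]
    (h : ∀ n, IsIso (A ◁ i n)) : IsZero (A ⊗ F 0) := by
  let w : ∀ n, A ⊗ F n ⟶ A ⊗ F 0 := fun n =>
    Nat.rec (motive := fun n => A ⊗ F n ⟶ A ⊗ F 0) (𝟙 _) (fun n u => inv (A ◁ i n) ≫ u) n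
  let Ψ := Limits.Sigma.desc fun n => MonoidalClosed.curry (w n)
  have h1 : tel F i ≫ Ψ = 0 := Sigma.hom_ext _ _ fun n => by
    rw [← Category.assoc, ι_tel, Preadditive.sub_comp, Category.assoc, Sigma.ι_desc, Sigma.ι_desc,
      ← MonoidalClosed.curry_natural_left, comp_zero, sub_eq_zero]
    congr 1
    exact (IsIso.hom_inv_id_assoc _ _).symm
  have h2 : Ψ = 0 := by rw [← cancel_epi (tel F i), h1, comp_zero]
  have h3 : MonoidalClosed.curry (w 0) = 0 := by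
    rw [← Sigma.ι_desc (fun n => MonoidalClosed.curry (w n)) 0]
    exact (congrArg (_ ≫ ·) h2).trans comp_zero
  rw [IsZero.iff_id_eq_zero]
  have h4 := congrArg MonoidalClosed.uncurry h3
  rwa [MonoidalClosed.uncurry_curry, MonoidalClosed.uncurry_eq,
    MonoidalPreadditive.whiskerLeft_zero, zero_comp] at h4

theorem isZero_func {A E : C} (η : 𝟙_ C ⟶ E) (μ : E ⊗ E ⟶ E) (hμ : E ◁ η ≫ μ = (ρ_ E).hom)
    (h : IsZero (A ⊗ E)) (Y : C) : IsZero (A ⊗ (ihom E).obj Y) := by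
  let M := (ihom E).obj Y
  let act : E ⊗ M ⟶ M := MonoidalClosed.curry ((α_ E E M).inv ≫ μ ▷ M ≫ (ihom.ev E).app Y)
  have h1 : ((λ_ M).inv ≫ η ▷ M) ≫ act = 𝟙 M := by
    apply MonoidalClosed.uncurry_injective
    rw [MonoidalClosed.uncurry_natural_left, MonoidalClosed.uncurry_curry,
      MonoidalClosed.uncurry_id_eq_ev, whiskerLeft_comp, Category.assoc,
      associator_inv_naturality_middle_assoc, ← comp_whiskerRight_assoc, hμ]
    simp [M]
  have h2 : IsZero (A ⊗ E ⊗ M) := (isZero_tensor_left h M).of_iso (α_ A E M).symm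
  rw [IsZero.iff_id_eq_zero, ← whiskerLeft_id, ← h1, whiskerLeft_comp,
    h2.eq_of_src (A ◁ act) 0, comp_zero]

theorem ghost (hC : Stable C) {q : ℤ} (hq : 2 ≤ q) {E B : C} (η : 𝟙_ C ⟶ E) (μ : E ⊗ E ⟶ E)
    (hμ : E ◁ η ≫ μ = (ρ_ E).hom) (p : E ⟶ B) (d : B ⟶ (𝟙_ C)⟦(1 : ℤ)⟧)
    (hT : Triangle.mk η p d ∈ distTriang C) (hB : Sparse q B) {A Y : C} (hA : IsZero (A ⊗ E))
    (hY : Gap q Y) : IsZero (A ⊗ Y) := by
  obtain ⟨c, N, hc⟩ := hY
  let I : C := B⟦(-1 : ℤ)⟧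
  let ε : I ⟶ 𝟙_ C := (Triangle.mk η p d).invRotate.mor₁
  let F : ℕ → C := fun n => Nat.rec Y (fun _ U => (ihom I).obj U) n
  let i : ∀ n, F n ⟶ F (n + 1) := fun n =>
    MonoidalClosed.unitNatIso.hom.app (F n) ≫ (MonoidalClosed.pre ε).app (F n)
  have hg : ∀ (n : ℕ) (j : ℤ), N ≤ j + n → j ≡ c + n [ZMOD q] → Z (Sph C j) (F n) := by
    intro n
    induction n with
    | zero => exact fun j hN hj => hc j (by simpa using hN) (by simpa using hj)
    | succ n ih =>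
      intro j hN hj
      obtain ⟨e⟩ := hC.susp I j
      refine (Z.equiv ((ihom.adjunction I).homEquiv (Sph C j) (F n))).1 ((Z.iso e).2 ?_)
      rw [Z.shift j (-j) (by ring), Z.shift (-1) 1 (by ring)]
      refine sparse_Z hB fun k => ?_
      rw [← Z.shift (-1) 1 (by ring), ← Z.add (q * (k + 1)) (-1) (q * (k + 1) - 1) (by ring),
        ← Z.shift j (-j) (by ring), ← Z.add (q * (k + 1) - 1) j (q * (k + 1) - 1 + j) rfl]
      refine ih _ ?_ ?_
      · have h0 : 0 ≤ q * k := mul_nonneg (by linarith) (Nat.cast_nonneg k)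
        push_cast at hN
        linarith
      have h1 : q * (k + 1) - 1 + j ≡ 0 - 1 + (c + (n + 1 : ℕ)) [ZMOD q] :=
        ((Int.modEq_zero_iff_dvd.2 (dvd_mul_right q _)).sub_right 1).add hj
      refine h1.trans ?_
      push_cast
      rw [show (-1 : ℤ) + (c + (n + 1)) = c + n by ring]
  have := tel_iso hC F i fun j n => by
    have h0 := Int.emod_nonneg (j - c - n) (show q ≠ 0 by linarith)
    have h1 : (0 : ℤ) ≤ |N - j| := abs_nonneg _
    have h2 : 0 ≤ (j - c - n) % q + q * |N - j| := by nlinarith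
    refine ⟨((j - c - n) % q + q * |N - j|).toNat, hg _ j ?_ ?_⟩
    · push_cast
      rw [Int.toNat_of_nonneg h2]
      have := le_abs_self (N - j)
      have : (0 : ℤ) ≤ n := Nat.cast_nonneg n
      nlinarith
    · push_cast
      rw [Int.toNat_of_nonneg h2]
      have := (((Int.mod_modEq (j - c - n) q).add
        (Int.modEq_zero_iff_dvd.2 (dvd_mul_right q |N - j|))).add_left (c + n)).symm
      rwa [show c + n + (j - c - n + 0) = j by ring, add_assoc] at this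
  refine isZero_of_tel A F i fun n => ?_
  obtain ⟨h1, hT1⟩ := hC.func (F n) _ (inv_rot_of_distTriang _ hT)
  obtain ⟨h2, hT2⟩ := hC.sm hT1 A
  have h3 : IsIso (A ◁ (MonoidalClosed.pre ε).app (F n)) :=
    (iz1 hT2).1 (isZero_func η μ hμ hA (F n))
  have h4 : IsIso (A ◁ MonoidalClosed.unitNatIso.hom.app (F n)) :=
    (whiskerLeftIso A (MonoidalClosed.unitNatIso.app (F n))).isIso_hom
  rw [show A ◁ i n = _ from whiskerLeft_comp A _ _]
  exact IsIso.comp_isIso' h4 h3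

end Pool.Agent.P.MP_3d2265_gt
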