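import Pool.Agent.P.MP_3d2265_gt.Ghost

/-! Comparison of two smashing localisations. -/

set_option linter.unusedSectionVars false

namespace Pool.Agent.P.MP_3d2265_gt

open CategoryTheory Limits Pretriangulated MonoidalCategory

universe v u

variable {C : Type u} [Category.{v} C] [Preadditive C] [HasZeroObject C] [HasShift C ℤ]
  [∀ n : ℤ, (shiftFunctor C n).Additive] [Pretriangulated C] [MonoidalCategory C]
  [MonoidalClosed C] [HasCoproducts.{0} C] [MonoidalPreadditive C] [BraidedCategory C]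
  {ι : Type}

/-- An equivalence for the family `T`. -/
def Eqv (T : ι → C) {X Y : C} (f : X ⟶ Y) : Prop := ∀ i, IsIso (T i ◁ f)

theorem eqv3 (hC : Stable C) {T : ι → C} {X Y W : C} {f : X ⟶ Y} {g : Y ⟶ W}
    {h : W ⟶ X⟦(1 : ℤ)⟧} (hT : Triangle.mk f g h ∈ distTriang C) : Eqv T f ↔ Acyc T W :=
  forall_congr' fun i => by
    obtain ⟨k, hk⟩ := hC.sm hT (T i)
    exact (iz3 hk).symm

theorem eqv1 (hC : Stable C) {T : ι → C} {X Y W : C} {f : X ⟶ Y} {g : Y ⟶ W}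
    {h : W ⟶ X⟦(1 : ℤ)⟧} (hT : Triangle.mk f g h ∈ distTriang C) : Eqv T g ↔ Acyc T X :=
  forall_congr' fun i => by
    obtain ⟨k, hk⟩ := hC.sm hT (T i)
    exact (iz1 hk).symm

theorem Eqv.ext (hC : Stable C) {T : ι → C} {X Y U : C} {f : X ⟶ Y} (hf : Eqv T f)
    (hU : Loc T U) (u : X ⟶ U) : ∃ v : Y ⟶ U, u = f ≫ v := by
  obtain ⟨D, a, b, hT⟩ := distinguished_cocone_triangle₁ f
  exact yo2 hT u (hU D ((eqv1 hC hT).1 hf) _)

theorem Eqv.inj (hC : Stable C) {T : ι → C} {X Y U : C} {f : X ⟶ Y} (hf : Eqv T f)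
    (hU : Loc T U) (v : Y ⟶ U) (h : f ≫ v = 0) : v = 0 := by
  obtain ⟨D, a, b, hT⟩ := distinguished_cocone_triangle f
  obtain ⟨w, hw⟩ := yo2 hT v h
  rw [hw, hU D ((eqv3 hC hT).1 hf) w, comp_zero]

theorem Eqv.iso (hC : Stable C) {T : ι → C} {X Y : C} {f : X ⟶ Y} (hf : Eqv T f)
    (hX : Loc T X) (hY : Loc T Y) : IsIso f := by
  obtain ⟨r, hr⟩ := hf.ext hC hX (𝟙 X)
  refine ⟨r, hr.symm, sub_eq_zero.1 (hf.inj hC hY _ ?_)⟩
  rw [Preadditive.comp_sub, ← Category.assoc, ← hr, Category.id_comp, Category.comp_id, sub_self]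

theorem swap_zero {A B D : C} (h : IsZero (A ⊗ B ⊗ D)) : IsZero (B ⊗ A ⊗ D) :=
  h.of_iso ((α_ B A D).symm ≪≫ whiskerRightIso (β_ B A) D ≪≫ α_ A B D)

theorem Acyc.left {T : ι → C} {A : C} (h : Acyc T A) (X : C) : Acyc T (X ⊗ A) :=
  fun i => swap_zero (isZero_tensor_right X (h i))

theorem Eqv.left (hC : Stable C) {T : ι → C} {X Y : C} {f : X ⟶ Y} (hf : Eqv T f) (U : C) :
    Eqv T (U ◁ f) := by
  obtain ⟨D, a, b, hT⟩ := distinguished_cocone_triangle f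
  obtain ⟨k, hk⟩ := hC.sm hT U
  exact (eqv3 hC hk).2 (((eqv3 hC hT).1 hf).left U)

theorem Eqv.of_iso (T : ι → C) {X Y : C} (f : X ⟶ Y) [IsIso f] : Eqv T f :=
  fun _ => inferInstance

theorem Eqv.comp {T : ι → C} {X Y W : C} {f : X ⟶ Y} {g : Y ⟶ W} (hf : Eqv T f) (hg : Eqv T g) :
    Eqv T (f ≫ g) := fun i => by
  rw [whiskerLeft_comp]; exact IsIso.comp_isIso' (hf i) (hg i)

theorem Eqv.cancel {T : ι → C} {X Y W : C} {f : X ⟶ Y} {g : Y ⟶ W} (hf : Eqv T f)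
    (hg : Eqv T (f ≫ g)) : Eqv T g := fun i => by
  have h1 := hf i
  have h2 := hg i
  rw [whiskerLeft_comp] at h2
  exact IsIso.of_isIso_comp_left (T i ◁ f) _

theorem Eqv.mono (hC : Stable C) {T K : ι → C} (hTK : ∀ A, Acyc T A → Acyc K A) {X Y : C}
    {f : X ⟶ Y} (hf : Eqv T f) : Eqv K f := by
  obtain ⟨D, a, b, hT⟩ := distinguished_cocone_triangle f
  exact (eqv3 hC hT).2 (hTK D ((eqv3 hC hT).1 hf))

theorem Loc.iso {T : ι → C} {X Y : C} (h : Loc T X) (e : Y ≅ X) : Loc T Y := fun A hA f => by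
  rw [← cancel_mono e.hom, h A hA (f ≫ e.hom), zero_comp]

theorem key (hC : Stable C) {T K : ι → C} (hT : Smashing T) (hK : Smashing K)
    (hTK : ∀ A, Acyc T A → Acyc K A) :
    ∃ A : C, ∀ X : C, (TC T K X → IsZero (X ⊗ A)) ∧ (Acyc T (X ⊗ A) → TC T K X) := by
  obtain ⟨P, l, hl, hP⟩ := hT
  obtain ⟨Q, m, hm, hQ⟩ := hK
  obtain ⟨A, a, b, hA⟩ := distinguished_cocone_triangle ((ρ_ P).inv ≫ P ◁ m)
  refine ⟨A, fun X => ?_⟩
  obtain ⟨k, hk⟩ := hC.sm hA X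
  have h1 : Eqv T ((ρ_ X).inv ≫ X ◁ l) := (Eqv.of_iso T _).comp (Eqv.left hC hl.1 X)
  have h2 : Eqv K (X ◁ ((ρ_ P).inv ≫ P ◁ m)) :=
    ((Eqv.of_iso K _).comp (Eqv.left hC hm.1 P)).left hC X
  have h3 : Loc K (X ⊗ P ⊗ Q) := (hQ (X ⊗ P)).iso (α_ X P Q).symm
  refine ⟨fun h => (iz3 hk).2 (h _ _ _ _ _ ⟨h1, hP X⟩ ⟨(h1.mono hC hTK).comp h2, h3⟩ rfl),
    fun h X' X'' a' b' c ha hb hc => ?_⟩
  have h4 := ((eqv3 hC hk).2 h).iso hC (hP X) fun B hB => h3 B (hTK B hB)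
  obtain ⟨v, hv⟩ := Eqv.ext hC ha.1 (hP X) ((ρ_ X).inv ≫ X ◁ l)
  have h5 := (Eqv.cancel ha.1 (hv ▸ h1)).iso hC ha.2 (hP X)
  have h6 : Loc K X' := h3.iso (asIso v ≪≫ asIso (X ◁ ((ρ_ P).inv ≫ P ◁ m)))
  exact (Eqv.cancel (Eqv.mono hC hTK ha.1) (hc ▸ hb.1)).iso hC h6 hb.2

theorem main (hC : Stable C) {q : ℤ} (hq : 2 ≤ q) {E B : C} (η : 𝟙_ C ⟶ E) (μ : E ⊗ E ⟶ E)
    (hμ : E ◁ η ≫ μ = (ρ_ E).hom) (p : E ⟶ B) (d : B ⟶ (𝟙_ C)⟦(1 : ℤ)⟧)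
    (hB : Triangle.mk η p d ∈ distTriang C) (hs : Sparse q B) {T K : ι → C} (hT : Smashing T)
    (hK : Smashing K) (hTK : ∀ A, Acyc T A → Acyc K A) (hE : TC T K E) {X : C}
    (hX : ∀ i, TC T K (T i) ∨
      ∃ V : C, (∀ A, IsZero (V ⊗ A) → IsZero (T i ⊗ A)) ∧ Gap q (V ⊗ X)) : TC T K X := by
  obtain ⟨A, hA⟩ := key hC hT hK hTK
  refine (hA X).2 fun i => ?_
  rcases hX i with h | ⟨V, hV, h⟩
  · exact swap_zero (isZero_tensor_right X ((hA _).1 h))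
  · refine hV _ ?_
    exact (ghost hC hq η μ hμ p d hB hs (((hA E).1 hE).of_iso (β_ A E)) h).of_iso
      ((α_ V X A).symm ≪≫ β_ _ A)

end Pool.Agent.P.MP_3d2265_gt
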